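import Pool.Agent.Helper37.RQ.A1

set_option autoImplicit false

/-! Row A2: one block of the test set is uniformly small. -/

namespace Pool.Agent.Helper37.RQ

open MeasureTheory Set

theorem a2_meas (hm : Monotone HH) (m : ℕ) : Measurable (gfun m) := by
  unfold gfun
  refine Measurable.sub (Measurable.ite (measurableSet_lt ?_ hm.measurable) measurable_const
    measurable_const) hm.measurable
  exact measurable_fract.comp (measurable_const.mul measurable_id)

theorem a2_bound (h0 : ∀ t, 0 ≤ HH t) (h1 : ∀ t, HH t ≤ 1) (m : ℕ) (t : ℝ) :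
    |gfun m t| ≤ 1 := by
  unfold gfun
  have a := h0 t
  have b := h1 t
  split_ifs <;> rw [abs_le] <;> constructor <;> linarith

theorem a2_step (m : ℕ) (hm0 : 0 < m) (N c : ℝ) (hc0 : 0 ≤ c) (hc1 : c ≤ 1) :
    ∫ t in Ico (N / m) ((N + 1) / m), (Iio ((N + c) / m)).indicator (fun _ => (1 : ℝ)) t =
      c / m := by
  have hmR : (0 : ℝ) < m := by exact_mod_cast hm0
  rw [setIntegral_indicator measurableSet_Iio, Ico_inter_Iio, min_eq_right, setIntegral_const,
    Real.volume_real_Ico_of_le, smul_eq_mul, mul_one]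
  · field_simp
    ring
  · exact div_le_div_of_nonneg_right (by linarith) hmR.le
  · exact div_le_div_of_nonneg_right (by linarith) hmR.le

theorem a2_cell (h0 : ∀ t, 0 ≤ HH t) (h1 : ∀ t, HH t ≤ 1) (hmono : Monotone HH) (m : ℕ)
    (hm0 : 0 < m) (N : ℤ) :
    |∫ t in Ico ((N : ℝ) / m) (((N : ℝ) + 1) / m), gfun m t| ≤
      (HH (((N : ℝ) + 1) / m) - HH ((N : ℝ) / m)) / m := by
  have hmR : (0 : ℝ) < m := by exact_mod_cast hm0
  obtain ⟨a, ha⟩ : ∃ a, a = HH ((N : ℝ) / m) := ⟨_, rfl⟩
  obtain ⟨b, hb⟩ : ∃ b, b = HH (((N : ℝ) + 1) / m) := ⟨_, rfl⟩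
  rw [← ha, ← hb]
  have ha0 : 0 ≤ a := by rw [ha]; exact h0 _
  have ha1 : a ≤ 1 := by rw [ha]; exact h1 _
  have hb0 : 0 ≤ b := by rw [hb]; exact h0 _
  have hb1 : b ≤ 1 := by rw [hb]; exact h1 _
  have hvol : volume (Ico ((N : ℝ) / m) (((N : ℝ) + 1) / m)) ≠ ⊤ := by
    rw [Real.volume_Ico]; exact ENNReal.ofReal_ne_top
  have hreal : volume.real (Ico ((N : ℝ) / m) (((N : ℝ) + 1) / m)) = 1 / m := by
    rw [Real.volume_real_Ico_of_le (div_le_div_of_nonneg_right (by linarith) hmR.le)]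
    field_simp
    ring
  have hint : IntegrableOn (gfun m) (Ico ((N : ℝ) / m) (((N : ℝ) + 1) / m)) := by
    refine Measure.integrableOn_of_bounded hvol (a2_meas hmono m).aestronglyMeasurable (M := 1) ?_
    exact Filter.Eventually.of_forall fun t => by
      rw [Real.norm_eq_abs]; exact a2_bound h0 h1 m t
  have hci : ∀ e : ℝ, IntegrableOn (fun _ : ℝ => e) (Ico ((N : ℝ) / m) (((N : ℝ) + 1) / m)) :=
    fun e => integrableOn_const hvol
  have hind : ∀ c e : ℝ, IntegrableOn (fun t => (Iio (((N : ℝ) + c) / m)).indicator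
      (fun _ => (1 : ℝ)) t - e) (Ico ((N : ℝ) / m) (((N : ℝ) + 1) / m)) := by
    intro c e
    exact Integrable.sub ((hci 1).indicator measurableSet_Iio) (hci e)
  have hval : ∀ c e : ℝ, 0 ≤ c → c ≤ 1 → ∫ t in Ico ((N : ℝ) / m) (((N : ℝ) + 1) / m),
      ((Iio (((N : ℝ) + c) / m)).indicator (fun _ => (1 : ℝ)) t - e) = (c - e) / m := by
    intro c e hc0 hc1
    rw [integral_sub ((hci 1).indicator measurableSet_Iio) (hci e), a2_step m hm0 N c hc0 hc1,
      setIntegral_const, hreal, smul_eq_mul]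
    ring
  have hfr : ∀ t ∈ Ico ((N : ℝ) / m) (((N : ℝ) + 1) / m), Int.fract ((m : ℝ) * t) =
      (m : ℝ) * t - N := by
    intro t ht
    have h2 : (N : ℝ) ≤ (m : ℝ) * t := by
      have := (div_le_iff₀ hmR).1 ht.1
      linarith
    have h3 : (m : ℝ) * t < (N : ℝ) + 1 := by
      have := (lt_div_iff₀ hmR).1 ht.2
      linarith
    have h4 : ⌊(m : ℝ) * t⌋ = N := Int.floor_eq_iff.2 ⟨h2, h3⟩
    rw [← Int.self_sub_floor, h4]
  have hHH : ∀ t ∈ Ico ((N : ℝ) / m) (((N : ℝ) + 1) / m), a ≤ HH t ∧ HH t ≤ b := by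
    intro t ht
    constructor
    · rw [ha]; exact hmono ht.1
    · rw [hb]; exact hmono ht.2.le
  have hmem : ∀ c t : ℝ, t ∈ Iio (((N : ℝ) + c) / m) ↔ (m : ℝ) * t - N < c := by
    intro c t
    rw [mem_Iio, lt_div_iff₀ hmR]
    constructor <;> intro h <;> linarith
  rw [abs_le]
  constructor
  · have h2 := setIntegral_mono_on (hind a b) hint measurableSet_Ico (fun t ht => ?_)
    · rw [hval a b ha0 ha1] at h2
      have h3 : -((b - a) / (m : ℝ)) = (a - b) / m := by ring
      rw [h3]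
      exact h2
    · obtain ⟨h3, h4⟩ := hHH t ht
      unfold gfun
      rw [hfr t ht]
      by_cases h5 : t ∈ Iio (((N : ℝ) + a) / m)
      · rw [indicator_of_mem h5]
        have h6 := (hmem a t).1 h5
        rw [if_pos (lt_of_lt_of_le h6 h3)]
        linarith
      · rw [indicator_of_notMem h5]
        split_ifs <;> linarith
  · have h2 := setIntegral_mono_on hint (hind b a) measurableSet_Ico (fun t ht => ?_)
    · rw [hval b a hb0 hb1] at h2
      exact h2
    · obtain ⟨h3, h4⟩ := hHH t ht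
      unfold gfun
      rw [hfr t ht]
      by_cases h5 : t ∈ Iio (((N : ℝ) + b) / m)
      · rw [indicator_of_mem h5]
        split_ifs <;> linarith
      · rw [indicator_of_notMem h5]
        have h6 : ¬ ((m : ℝ) * t - N < HH t) := by
          intro h7
          exact h5 ((hmem b t).2 (lt_of_lt_of_le h7 h4))
        rw [if_neg h6]
        linarith

theorem a2_cellQ (h0 : ∀ t, 0 ≤ HH t) (h1 : ∀ t, HH t ≤ 1) (hmono : Monotone HH) (m : ℕ)
    (hm0 : 0 < m) (N : ℤ) {Q : ℝ → ℝ} {M ω : ℝ} (hQc : Continuous Q) (hQ : ∀ t, |Q t| ≤ M)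
    (hω : ∀ s t : ℝ, |s - t| ≤ 1 / (m : ℝ) → |Q s - Q t| ≤ ω) :
    |∫ t in Ico ((N : ℝ) / m) (((N : ℝ) + 1) / m), gfun m t * Q t| ≤
      ω / m + M / m * (HH (((N : ℝ) + 1) / m) - HH ((N : ℝ) / m)) := by
  have hmR : (0 : ℝ) < m := by exact_mod_cast hm0
  obtain ⟨α, hα⟩ : ∃ α, α = (N : ℝ) / m := ⟨_, rfl⟩
  obtain ⟨β, hβ⟩ : ∃ β, β = ((N : ℝ) + 1) / m := ⟨_, rfl⟩
  have hcell := a2_cell h0 h1 hmono m hm0 N
  rw [← hα, ← hβ] at hcell
  rw [← hα, ← hβ]
  have hlen : β - α = 1 / m := by rw [hα, hβ]; ring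
  have hαβ : α ≤ β := by
    have : (0 : ℝ) < 1 / m := by positivity
    linarith
  have hvol : volume (Ico α β) ≠ ⊤ := by
    rw [Real.volume_Ico]; exact ENNReal.ofReal_ne_top
  have hreal : volume.real (Ico α β) = 1 / m := by
    rw [Real.volume_real_Ico_of_le hαβ, hlen]
  have hM0 : 0 ≤ M := (abs_nonneg _).trans (hQ 0)
  have hω0 : 0 ≤ ω := (abs_nonneg _).trans (hω 0 0 (by rw [sub_zero, abs_zero]; positivity))
  have hgm := a2_meas hmono m
  have hint1 : IntegrableOn (fun t => gfun m t * (Q t - Q α)) (Ico α β) := by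
    refine Measure.integrableOn_of_bounded hvol
      (hgm.mul (hQc.measurable.sub measurable_const)).aestronglyMeasurable (M := 1 * (M + M)) ?_
    refine Filter.Eventually.of_forall fun t => ?_
    rw [Real.norm_eq_abs, abs_mul]
    refine mul_le_mul (a2_bound h0 h1 m t) ?_ (abs_nonneg _) zero_le_one
    exact (abs_sub _ _).trans (add_le_add (hQ t) (hQ α))
  have hint2 : IntegrableOn (fun t => Q α * gfun m t) (Ico α β) := by
    refine Measure.integrableOn_of_bounded hvol
      (measurable_const.mul hgm).aestronglyMeasurable (M := M * 1) ?_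
    refine Filter.Eventually.of_forall fun t => ?_
    rw [Real.norm_eq_abs, abs_mul]
    exact mul_le_mul (hQ α) (a2_bound h0 h1 m t) (abs_nonneg _) hM0
  have hsplit : ∫ t in Ico α β, gfun m t * Q t =
      (∫ t in Ico α β, gfun m t * (Q t - Q α)) + Q α * ∫ t in Ico α β, gfun m t := by
    rw [← integral_const_mul, ← integral_add hint1 hint2]
    refine integral_congr_ae (Filter.Eventually.of_forall fun t => ?_)
    show gfun m t * Q t = gfun m t * (Q t - Q α) + Q α * gfun m t
    ring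
  rw [hsplit]
  refine (abs_add_le _ _).trans (add_le_add ?_ ?_)
  · have h2 := norm_setIntegral_le_of_norm_le_const (μ := volume) (s := Ico α β)
      (f := fun t => gfun m t * (Q t - Q α)) (C := ω) hvol.lt_top ?_
    · rw [Real.norm_eq_abs, hreal] at h2
      refine h2.trans (le_of_eq ?_)
      ring
    · intro t ht
      rw [Real.norm_eq_abs, abs_mul]
      have h3 : |Q t - Q α| ≤ ω := by
        refine hω t α ?_
        rw [← hlen, abs_of_nonneg (by linarith [ht.1])]
        linarith [ht.2]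
      calc |gfun m t| * |Q t - Q α| ≤ 1 * ω :=
            mul_le_mul (a2_bound h0 h1 m t) h3 (abs_nonneg _) zero_le_one
        _ = ω := one_mul ω
  · rw [abs_mul]
    have hd : 0 ≤ HH β - HH α := sub_nonneg.2 (hmono hαβ)
    calc |Q α| * |∫ t in Ico α β, gfun m t| ≤ M * ((HH β - HH α) / m) :=
          mul_le_mul (hQ α) hcell (abs_nonneg _) hM0
      _ = M / m * (HH β - HH α) := by ring

theorem a2_block (h0 : ∀ t, 0 ≤ HH t) (h1 : ∀ t, HH t ≤ 1) (hmono : Monotone HH) (m : ℕ)
    (hm0 : 0 < m) (j : ℤ) {Q : ℝ → ℝ} {M ω : ℝ} (hQc : Continuous Q) (hQ : ∀ t, |Q t| ≤ M)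
    (hω : ∀ s t : ℝ, |s - t| ≤ 1 / (m : ℝ) → |Q s - Q t| ≤ ω) :
    |∫ t in Ico (j : ℝ) (j + 1), gfun m t * Q t| ≤ ω + M / m := by
  have hmR : (0 : ℝ) < m := by exact_mod_cast hm0
  have hM0 : 0 ≤ M := (abs_nonneg _).trans (hQ 0)
  have hgm := a2_meas hmono m
  let a : ℕ → ℝ := fun k => (((j * m + k : ℤ)) : ℝ) / m
  have ha : ∀ k, a k = (((j * m + k : ℤ)) : ℝ) / m := fun k => rfl
  have ha' : ∀ k : ℕ, a (k + 1) = ((((j * m + k : ℤ)) : ℝ) + 1) / m := by
    intro k
    rw [ha]
    push_cast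
    ring
  have hmono' : ∀ k, a k ≤ a (k + 1) := by
    intro k
    rw [ha, ha']
    exact div_le_div_of_nonneg_right (by linarith) hmR.le
  have hcell : ∀ k, |∫ t in a k..a (k + 1), gfun m t * Q t| ≤
      ω / m + M / m * (HH (a (k + 1)) - HH (a k)) := by
    intro k
    rw [intervalIntegral.integral_of_le (hmono' k), ← integral_Ico_eq_integral_Ioc, ha', ha]
    exact a2_cellQ h0 h1 hmono m hm0 (j * m + k) hQc hQ hω
  have hii : ∀ x y : ℝ, IntervalIntegrable (fun t => gfun m t * Q t) volume x y := by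
    intro x y
    rw [intervalIntegrable_iff]
    have hvol : volume (uIoc x y) ≠ ⊤ := by
      rw [uIoc, Real.volume_Ioc]; exact ENNReal.ofReal_ne_top
    refine Measure.integrableOn_of_bounded hvol
      (hgm.mul hQc.measurable).aestronglyMeasurable (M := 1 * M) ?_
    refine Filter.Eventually.of_forall fun t => ?_
    rw [Real.norm_eq_abs, abs_mul]
    exact mul_le_mul (a2_bound h0 h1 m t) (hQ t) (abs_nonneg _) zero_le_one
  have hsum := intervalIntegral.sum_integral_adjacent_intervals (a := a) (n := m)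
    (f := fun t => gfun m t * Q t) (μ := volume) (fun k _ => hii _ _)
  have e0 : a 0 = j := by
    rw [ha]
    push_cast
    field_simp
    ring
  have em : a m = j + 1 := by
    rw [ha]
    push_cast
    field_simp
  have htot : ∫ t in Ico (j : ℝ) (j + 1), gfun m t * Q t =
      ∑ k ∈ Finset.range m, ∫ t in a k..a (k + 1), gfun m t * Q t := by
    rw [hsum, e0, em, intervalIntegral.integral_of_le (by linarith), integral_Ico_eq_integral_Ioc]
  rw [htot]
  calc |∑ k ∈ Finset.range m, ∫ t in a k..a (k + 1), gfun m t * Q t|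
      ≤ ∑ k ∈ Finset.range m, |∫ t in a k..a (k + 1), gfun m t * Q t| :=
        Finset.abs_sum_le_sum_abs _ _
    _ ≤ ∑ k ∈ Finset.range m, (ω / m + M / m * (HH (a (k + 1)) - HH (a k))) :=
        Finset.sum_le_sum fun k _ => hcell k
    _ = ω + M / m * (HH (a m) - HH (a 0)) := by
        rw [Finset.sum_add_distrib, ← Finset.mul_sum, Finset.sum_range_sub (fun k => HH (a k)),
          Finset.sum_const, Finset.card_range, nsmul_eq_mul]
        field_simp
    _ ≤ ω + M / m * 1 := by
        have h2 : HH (a m) - HH (a 0) ≤ 1 := by linarith [h0 (a 0), h1 (a m)]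
        have h3 : 0 ≤ M / m := by positivity
        have := mul_le_mul_of_nonneg_left h2 h3
        linarith
    _ = ω + M / m := by rw [mul_one]

theorem small_blocks_of (h0 : ∀ t, 0 ≤ HH t) (h1 : ∀ t, HH t ≤ 1) (hmono : Monotone HH)
    {q : ℝ → ℝ} (hq : Integrable q) {ε : ℝ} (hε : 0 < ε) :
    ∃ m : ℕ, ∀ j : ℤ, ∀ r : ℝ, 1 ≤ r → ∀ u : ℝ, |EE q m j r u| ≤ ε := by
  obtain ⟨q', hcs, happ, hcont, hint'⟩ :=
    hq.exists_hasCompactSupport_integral_sub_le (half_pos hε)
  obtain ⟨M, hM⟩ := hcs.exists_bound_of_continuous hcont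
  have hM0 : 0 ≤ M := (norm_nonneg _).trans (hM 0)
  have huc := hcs.uniformContinuous_of_continuous hcont
  obtain ⟨δ, hδ, hδ'⟩ := Metric.uniformContinuous_iff.1 huc (ε / 4) (by positivity)
  obtain ⟨m, hm⟩ := exists_nat_gt (max (1 / δ) (4 * M / ε))
  have hmδ : 1 / δ < m := (le_max_left _ _).trans_lt hm
  have hmM : 4 * M / ε < m := (le_max_right _ _).trans_lt hm
  have hmR : (0 : ℝ) < m := lt_trans (by positivity) hmδ
  have hm0 : 0 < m := by exact_mod_cast hmR
  have hgm := a2_meas hmono m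
  refine ⟨m, fun j r hr u => ?_⟩
  have hr0 : 0 < r := by linarith
  -- the bounded factor
  have hFm : Measurable fun s : ℝ => (Ico (j : ℝ) (j + 1)).indicator (gfun m) (u + r * s) :=
    (hgm.indicator measurableSet_Ico).comp
      (measurable_const.add (measurable_const.mul measurable_id))
  have hFb : ∀ s : ℝ, ‖(Ico (j : ℝ) (j + 1)).indicator (gfun m) (u + r * s)‖ ≤ 1 := by
    intro s
    rw [Real.norm_eq_abs, indicator]
    split_ifs
    · exact a2_bound h0 h1 m _
    · simp
  have hFi : ∀ f : ℝ → ℝ, Integrable f → Integrable fun s =>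
      (Ico (j : ℝ) (j + 1)).indicator (gfun m) (u + r * s) * f s := by
    intro f hf
    exact hf.bdd_mul hFm.aestronglyMeasurable (Filter.Eventually.of_forall hFb)
  have hdiff : |EE q m j r u - EE q' m j r u| ≤ ε / 2 := by
    unfold EE
    rw [← integral_sub (hFi q hq) (hFi q' hint')]
    refine (abs_integral_le_integral_abs).trans (le_trans ?_ happ)
    refine integral_mono_of_nonneg (Filter.Eventually.of_forall fun s => abs_nonneg _)
      (hq.sub hint').norm (Filter.Eventually.of_forall fun s => ?_)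
    show |_ * q s - _ * q' s| ≤ ‖q s - q' s‖
    rw [← mul_sub, abs_mul, Real.norm_eq_abs]
    calc _ ≤ 1 * |q s - q' s| := mul_le_mul_of_nonneg_right (hFb s) (abs_nonneg _)
      _ = _ := one_mul _
  -- substitution
  have hsub : EE q' m j r u =
      r⁻¹ * ∫ t in Ico (j : ℝ) (j + 1), gfun m t * q' ((t - u) / r) := by
    unfold EE
    have h2 : (fun s : ℝ => (Ico (j : ℝ) (j + 1)).indicator (gfun m) (u + r * s) * q' s) =
        fun s => (fun y => (Ico (j : ℝ) (j + 1)).indicator
          (fun t => gfun m t * q' ((t - u) / r)) (u + y)) (r * s) := by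
      funext s
      by_cases h3 : u + r * s ∈ Ico (j : ℝ) (j + 1)
      · simp only [indicator_of_mem h3]
        congr 2
        field_simp
        ring
      · simp only [indicator_of_notMem h3]
        rw [zero_mul]
    have h4 := Measure.integral_comp_mul_left (fun y => (Ico (j : ℝ) (j + 1)).indicator
      (fun t => gfun m t * q' ((t - u) / r)) (u + y)) r
    rw [h2]
    refine h4.trans ?_
    rw [integral_add_left_eq_self
      (fun t => (Ico (j : ℝ) (j + 1)).indicator (fun t => gfun m t * q' ((t - u) / r)) t) u,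
      integral_indicator measurableSet_Ico, abs_of_pos (inv_pos.2 hr0), smul_eq_mul]
  have hblk : |∫ t in Ico (j : ℝ) (j + 1), gfun m t * q' ((t - u) / r)| ≤ ε / 4 + M / m := by
    refine a2_block h0 h1 hmono m hm0 j (hcont.comp ((continuous_id.sub continuous_const).div_const r))
      (fun t => ?_) (fun s t hst => ?_)
    · exact hM _
    · have h2 : dist ((s - u) / r) ((t - u) / r) < δ := by
        rw [Real.dist_eq, ← sub_div, abs_div, abs_of_pos hr0]
        have h3 : s - u - (t - u) = s - t := by ring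
        rw [h3]
        calc |s - t| / r ≤ |s - t| := div_le_self (abs_nonneg _) hr
          _ ≤ 1 / m := hst
          _ < δ := by
              rw [div_lt_iff₀ hmR]
              have := (div_lt_iff₀ hδ).1 hmδ
              linarith
      have := hδ' h2
      rw [Real.dist_eq] at this
      exact this.le
  have hMm : M / m ≤ ε / 4 := by
    rw [div_le_iff₀ hmR]
    have := (div_lt_iff₀ hε).1 hmM
    nlinarith
  have hE' : |EE q' m j r u| ≤ ε / 2 := by
    rw [hsub, abs_mul, abs_of_pos (inv_pos.2 hr0)]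
    have h2 : r⁻¹ ≤ 1 := inv_le_one_of_one_le₀ hr
    calc r⁻¹ * |∫ t in Ico (j : ℝ) (j + 1), gfun m t * q' ((t - u) / r)|
        ≤ 1 * |∫ t in Ico (j : ℝ) (j + 1), gfun m t * q' ((t - u) / r)| :=
          mul_le_mul_of_nonneg_right h2 (abs_nonneg _)
      _ ≤ ε / 2 := by rw [one_mul]; linarith
  have h3 : EE q m j r u = (EE q m j r u - EE q' m j r u) + EE q' m j r u := by ring
  rw [h3]
  refine (abs_add_le _ _).trans ?_
  linarith

/-- **Row A2.** -/
theorem small_blocks {q : ℝ → ℝ} (hq : Integrable q) {ε : ℝ} (hε : 0 < ε) :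
    ∃ m : ℕ, ∀ j : ℤ, ∀ r : ℝ, 1 ≤ r → ∀ u : ℝ, |EE q m j r u| ≤ ε :=
  small_blocks_of HH_nonneg HH_le_one HH_mono hq hε

end Pool.Agent.Helper37.RQ
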